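import Mathlib
import Pool.Agent.Helper26.MCE.GoalsA

/-!
Heavy step of project MCE.
-/

namespace Pool.Agent.Helper69.MCE

open Finset Pool.Agent.Helper87.MC Pool.Agent.Helper26.MCE

structure HInv {G : Type} [AddCommGroup G] [Fintype G] (μ : G → ℝ) (τ δ : ℝ)
    (E A : Finset G) (P Δ : AddSubgroup G) (j : ℕ) (Λ : AddSubgroup G) (B : Finset G) : Prop where
  pl : P ≤ Λ
  ld : Λ ≤ Δ
  ms : 1 ≤ (16 * τ ^ 2) ^ j * mass μ Λ
  sub : B ⊆ A
  ne : B.Nonempty
  sat : ∀ x ∈ B, ∀ y ∈ E, y - x ∈ Λ → y ∈ B
  popu : ∀ w ∈ Λ, μ w ≠ 0 → (A.card : ℝ) ≤ 2 * τ * rr B w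
  fb : 1 ≤ j → ∀ x ∈ B, ((fib E Λ x).card : ℝ) ≤ δ * Nat.card Λ
  sz : (Nat.card Λ : ℝ) * δ ≤ δ ^ j * Fintype.card G

lemma mass_mono {G : Type} [AddCommGroup G] [Fintype G] (μ : G → ℝ) (hμ : ∀ w, 0 ≤ μ w)
    {Λ Λ' : AddSubgroup G} (h : Λ ≤ Λ') : mass μ Λ ≤ mass μ Λ' := by
  classical
  unfold mass
  refine Finset.sum_le_sum fun w _ => ?_
  by_cases hw : w ∈ Λ
  · rw [if_pos hw, if_pos (h hw)]
  · rw [if_neg hw]
    split_ifs
    · exact hμ w
    · exact le_refl _

lemma mem_full {G : Type} [AddCommGroup G] [Fintype G] (D : Finset G) (K : AddSubgroup G) (x : G) :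
    x ∈ full D K ↔ x ∈ D ∧ ∀ h ∈ K, x + h ∈ D := by
  classical
  unfold full
  rw [Finset.mem_filter]

lemma full_shift {G : Type} [AddCommGroup G] [Fintype G] (D : Finset G) (K : AddSubgroup G)
    (x y : G) (hx : x ∈ full D K) (hy : y - x ∈ K) : y ∈ full D K := by
  rw [mem_full] at hx ⊢
  constructor
  · have := hx.2 _ hy
    rwa [add_sub_cancel] at this
  · intro h hh
    have := hx.2 _ (K.add_mem hy hh)
    have e : x + (y - x + h) = y + h := by abel
    rwa [e] at this

theorem goalHV (h1 : G_LA) (h2 : G_CL) : G_HV := by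
  classical
  intro G _ _ μ τ ρ δ ℓ J E A P Δ hτ hρ hδ hℓ hcard hJ hbig hδs hμ0 hμ1 hμs hTT hPΔ hPer hAE hAne
    hsat hpop
  by_contra hcon
  push Not at hcon
  have hτ0 : 0 < τ := by linarith
  have hℓ1 : (1 : ℝ) ≤ ℓ := by exact_mod_cast hℓ
  have hδ1 : δ ≤ 1 := by nlinarith
  have h16 : (1 : ℝ) ≤ 16 * τ ^ 2 := by nlinarith
  have hn0 : (0 : ℝ) < Fintype.card G := by
    have : 0 < Fintype.card G := Fintype.card_pos_iff.2 ⟨0⟩
    exact_mod_cast this
  have hcardle : ∀ Λ : AddSubgroup G, (Nat.card Λ : ℝ) ≤ Fintype.card G := by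
    intro Λ
    have := Nat.card_le_card_of_injective (fun x : Λ => (x : G)) Subtype.val_injective
    rw [Nat.card_eq_fintype_card (α := G)] at this
    exact_mod_cast this
  have hcard1 : ∀ Λ : AddSubgroup G, (1 : ℝ) ≤ Nat.card Λ := by
    intro Λ
    have : 0 < Nat.card Λ := Nat.card_pos
    exact_mod_cast this
  have key : ∀ j, ∃ Λ B, HInv μ τ δ E A P Δ j Λ B := by
    intro j
    induction j with
    | zero =>
      refine ⟨Δ, A, hPΔ, le_refl _, ?_, subset_refl _, hAne, hsat, ?_, ?_, ?_⟩
      · rw [pow_zero, one_mul, ← hμ1]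
        unfold mass
        refine Finset.sum_le_sum fun w _ => ?_
        by_cases hw : μ w = 0
        · rw [hw]
          split_ifs <;> exact le_refl _
        · rw [if_pos (hμs w hw).1]
      · intro w _ hw
        have h3 := hpop w hw
        have h4 : (0 : ℝ) ≤ rr A w := Nat.cast_nonneg _
        nlinarith [mul_nonneg hτ0.le h4]
      · intro h
        omega
      · rw [pow_zero, one_mul]
        have h3 := hcardle Δ
        have h4 := hcard1 Δ
        nlinarith
    | succ j ih =>
      obtain ⟨Λ, B, hI⟩ := ih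
      -- j ≤ J
      have hjJ : j ≤ J := by
        by_contra hlt
        push Not at hlt
        have h3 : δ ^ j ≤ δ ^ (J + 1) := pow_le_pow_of_le_one hδ.le hδ1 hlt
        have h4 : δ ≤ δ ^ j * Fintype.card G := by
          have := hI.sz
          have h5 := hcard1 Λ
          nlinarith
        have h5 : δ ^ j * Fintype.card G ≤ δ ^ (J + 1) * Fintype.card G :=
          mul_le_mul_of_nonneg_right h3 hn0.le
        have h6 : δ ^ (J + 1) * Fintype.card G = δ * (δ ^ J * Fintype.card G) := by ring
        nlinarith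
      set m := mass μ Λ with hm
      have hm0 : 0 < m := by
        by_contra hle
        push Not at hle
        have h3 := hI.ms
        have h4 : (0 : ℝ) < (16 * τ ^ 2) ^ j := by positivity
        nlinarith
      have hmJ : 1 ≤ (16 * τ ^ 2) ^ J * m := by
        refine hI.ms.trans (mul_le_mul_of_nonneg_right ?_ hm0.le)
        exact pow_le_pow_right₀ h16 hjJ
      have hsmall : 384 * τ ^ 2 * ρ * ℓ * (1 + ℓ) ≤ m := by
        have h3 : 384 * τ ^ 2 * ρ * ℓ * (1 + ℓ) * (16 * τ ^ 2) ^ J ≤ 1 := by
          calc 384 * τ ^ 2 * ρ * ℓ * (1 + ℓ) * (16 * τ ^ 2) ^ J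
              = 4 * (1 + ℓ) * (96 * τ ^ 2 * ρ * ℓ * (16 * τ ^ 2) ^ J) := by ring
            _ ≤ 4 * (1 + ℓ) * δ := by
              apply mul_le_mul_of_nonneg_left hbig
              positivity
            _ ≤ 1 := hδs
        have h4 : (0 : ℝ) < (16 * τ ^ 2) ^ J := by positivity
        by_contra hlt
        push Not at hlt
        have h5 : (16 * τ ^ 2) ^ J * m < (16 * τ ^ 2) ^ J * (384 * τ ^ 2 * ρ * ℓ * (1 + ℓ)) :=
          mul_lt_mul_of_pos_left hlt h4
        nlinarith
      have hδm : 96 * τ ^ 2 * ρ * ℓ ≤ δ * m := by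
        have h3 : 96 * τ ^ 2 * ρ * ℓ ≤ 96 * τ ^ 2 * ρ * ℓ * ((16 * τ ^ 2) ^ J * m) := by
          have h4 : (0 : ℝ) ≤ 96 * τ ^ 2 * ρ * ℓ := by positivity
          nlinarith
        have h4 : 96 * τ ^ 2 * ρ * ℓ * ((16 * τ ^ 2) ^ J * m) =
            (96 * τ ^ 2 * ρ * ℓ * (16 * τ ^ 2) ^ J) * m := by ring
        rw [h4] at h3
        exact h3.trans (mul_le_mul_of_nonneg_right hbig hm0.le)
      have hBE : B ⊆ E := hI.sub.trans hAE
      have hBP : ∀ x ∈ B, ∀ h ∈ P, x + h ∈ B := by
        intro x hx h hh
        apply hI.sat x hx _ (hPer x (hBE hx) h hh)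
        rw [add_sub_cancel_left]
        exact hI.pl hh
      set ν : G → ℝ := fun w => if w ∈ Λ then μ w else 0 with hν
      have hν0 : ∀ w, 0 ≤ ν w := by
        intro w
        simp only [hν]
        split_ifs
        · exact hμ0 w
        · exact le_refl _
      have hνμ : ∀ w, ν w ≤ μ w := by
        intro w
        simp only [hν]
        split_ifs
        · exact le_refl _
        · exact hμ0 w
      have hνs : ∑ w, ν w = m := rfl
      have hTν : ∀ z, z ∉ B → TT ν B z ≤ ρ := by
        intro z hz
        by_cases hzE : z ∈ E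
        · have h3 : TT ν B z = 0 := by
            unfold TT
            refine Finset.sum_eq_zero fun w _ => ?_
            split_ifs with hw
            · simp only [hν]
              rw [if_neg]
              intro hwΛ
              apply hz
              apply hI.sat _ hw z hzE
              have e : z - (z - w) = w := by abel
              rw [e]
              exact hwΛ
            · rfl
          rw [h3]
          exact hρ.le
        · refine le_trans ?_ (hTT z hzE)
          unfold TT
          refine Finset.sum_le_sum fun w _ => ?_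
          by_cases hw : z - w ∈ B
          · rw [if_pos hw, if_pos (hBE hw)]
            exact hνμ w
          · rw [if_neg hw]
            split_ifs
            · exact hμ0 w
            · exact le_refl _
      have hBcard : (0 : ℝ) < B.card := by
        have := Finset.card_pos.2 hI.ne
        exact_mod_cast this
      have hBA : (B.card : ℝ) ≤ A.card := by
        have := Finset.card_le_card hI.sub
        exact_mod_cast this
      have hlog : Real.log B.card ≤ ℓ := by
        have h3 : B.card ≤ 2 ^ ℓ := (Finset.card_le_univ B).trans hcard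
        have h4 : (B.card : ℝ) ≤ 2 ^ ℓ := by exact_mod_cast h3
        have h5 := Real.log_le_log hBcard h4
        rw [Real.log_pow] at h5
        have h6 := Real.log_two_lt_d9
        have h7 : (0 : ℝ) ≤ ℓ := Nat.cast_nonneg _
        nlinarith
      obtain ⟨Λ', x, hx, hbig'⟩ : ∃ (Λ' : AddSubgroup G) (x : G), (∀ h ∈ Λ', x + h ∈ B) ∧
          m / (8 * τ ^ 2) < ∑ w, if w ∈ Λ' then ν w else 0 := by
        by_contra hcon2
        push Not at hcon2
        have h3 := h1 G ν ρ (m / (8 * τ ^ 2)) univ B hν0 hρ hI.ne hTν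
          (fun Λ' x hx => hcon2 Λ' x hx)
        rw [hνs] at h3
        have h4 : m / (2 * τ) ≤ ∑ w, ν w * ((rr B w : ℝ) / B.card) := by
          rw [← hνs, Finset.sum_div]
          refine Finset.sum_le_sum fun w _ => ?_
          by_cases hw : ν w = 0
          · rw [hw]
            simp
          · have hwΛ : w ∈ Λ := by
              by_contra hwn
              apply hw
              simp only [hν]
              rw [if_neg hwn]
            have hwμ : μ w ≠ 0 := by
              intro h0
              apply hw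
              simp only [hν]
              rw [if_pos hwΛ, h0]
            have h5 := hI.popu w hwΛ hwμ
            rw [div_eq_mul_inv]
            apply mul_le_mul_of_nonneg_left _ (hν0 w)
            rw [inv_eq_one_div, div_le_div_iff₀ (by positivity) hBcard]
            linarith
        have h5 : (m / (2 * τ)) ^ 2 ≤ m * (m / (8 * τ ^ 2) + 4 * ρ * (1 + Real.log B.card)) :=
          (pow_le_pow_left₀ (by positivity) h4 2).trans h3
        have h6 : (m / (2 * τ)) ^ 2 = m * (m / (4 * τ ^ 2)) := by
          field_simp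
          ring
        rw [h6] at h5
        have h7 := le_of_mul_le_mul_left h5 hm0
        have h8 : 4 * ρ * (1 + Real.log B.card) ≤ 4 * ρ * (1 + ℓ) := by
          apply mul_le_mul_of_nonneg_left _ (by positivity)
          linarith
        have h9 : m / (4 * τ ^ 2) = m / (8 * τ ^ 2) + m / (8 * τ ^ 2) := by
          field_simp
          ring
        have h10 : m / (8 * τ ^ 2) ≤ 4 * ρ * (1 + ℓ) := by linarith
        rw [div_le_iff₀ (by positivity)] at h10
        have h11 : 4 * ρ * (1 + ℓ) * (8 * τ ^ 2) < 384 * τ ^ 2 * ρ * ℓ * (1 + ℓ) := by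
          have h12 : 0 < τ ^ 2 * ρ * (1 + ℓ) := by positivity
          nlinarith
        linarith
      -- the subgroup Λ''
      set Λ'' : AddSubgroup G := (Λ' ⊓ Λ) ⊔ P with hΛ''
      have hxΛ : ∀ h ∈ Λ'', x + h ∈ B := by
        intro h hh
        rw [hΛ'', AddSubgroup.mem_sup] at hh
        obtain ⟨a, ha, b, hb, rfl⟩ := hh
        rw [← add_assoc]
        exact hBP _ (hx a (AddSubgroup.mem_inf.1 ha).1) b hb
      have hΛ''Λ : Λ'' ≤ Λ := sup_le inf_le_right hI.pl
      have hκ0 : 0 < m / (8 * τ ^ 2) := by positivity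
      have hκ : m / (8 * τ ^ 2) ≤ mass μ Λ'' := by
        refine hbig'.le.trans ?_
        unfold mass
        refine Finset.sum_le_sum fun w _ => ?_
        by_cases hw : w ∈ Λ'
        · rw [if_pos hw]
          simp only [hν]
          by_cases hw2 : w ∈ Λ
          · rw [if_pos hw2, if_pos]
            exact (le_sup_left : Λ' ⊓ Λ ≤ Λ'') (AddSubgroup.mem_inf.2 ⟨hw, hw2⟩)
          · rw [if_neg hw2]
            split_ifs
            · exact hμ0 w
            · exact le_refl _
        · rw [if_neg hw]
          split_ifs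
          · exact hμ0 w
          · exact le_refl _
      have hcond : 48 * ρ * ℓ * (1 + ℓ) ≤ m / (8 * τ ^ 2) := by
        rw [le_div_iff₀ (by positivity)]
        calc 48 * ρ * ℓ * (1 + ℓ) * (8 * τ ^ 2) = 384 * τ ^ 2 * ρ * ℓ * (1 + ℓ) := by ring
          _ ≤ m := hsmall
      obtain ⟨Λ₁, hPΛ₁, hΛ₁, hmΛ₁, hclean⟩ := h2 G μ ρ (m / (8 * τ ^ 2)) ℓ E P Λ'' hμ0 hρ hκ0 hℓ
        hcard hTT le_sup_right hPer hκ hcond
      have hcl : Clean E Λ₁ δ := by
        intro y hy
        refine (hclean y hy).trans (mul_le_mul_of_nonneg_right ?_ (Nat.cast_nonneg _))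
        rw [div_le_iff₀ hκ0]
        have h3 : δ * (m / (8 * τ ^ 2)) = δ * m / (8 * τ ^ 2) := by ring
        rw [h3, le_div_iff₀ (by positivity)]
        calc 12 * ρ * ℓ * (8 * τ ^ 2) = 96 * τ ^ 2 * ρ * ℓ := by ring
          _ ≤ δ * m := hδm
      have hΛ₁Λ : Λ₁ ≤ Λ := hΛ₁.trans hΛ''Λ
      have hΛ₁Δ : Λ₁ ≤ Δ := hΛ₁Λ.trans hI.ld
      have hmass1 : 0 < mass μ Λ₁ := lt_of_lt_of_le (by positivity) hmΛ₁
      have hPlt : P < Λ₁ := by
        refine lt_of_le_of_ne hPΛ₁ ?_
        intro heq
        rw [← heq] at hmass1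
        have h3 : mass μ P = 0 := by
          unfold mass
          refine Finset.sum_eq_zero fun w _ => ?_
          split_ifs with hw
          · by_contra hne
            exact (hμs w hne).2 hw
          · rfl
        rw [h3] at hmass1
        exact lt_irrefl _ hmass1
      have hlt := hcon Λ₁ hPlt hΛ₁Δ hcl
      refine ⟨Λ₁, A \ full A Λ₁, hPΛ₁, hΛ₁Δ, ?_, sdiff_subset, ?_, ?_, ?_, ?_, ?_⟩
      · have h3 : (16 * τ ^ 2) ^ (j + 1) * mass μ Λ₁ ≥ (16 * τ ^ 2) ^ (j + 1) * (m / (8 * τ ^ 2) / 2) :=
          mul_le_mul_of_nonneg_left hmΛ₁ (by positivity)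
        have h4 : (16 * τ ^ 2) ^ (j + 1) * (m / (8 * τ ^ 2) / 2) = (16 * τ ^ 2) ^ j * m := by
          rw [pow_succ]
          field_simp
          ring
        rw [h4] at h3
        exact hI.ms.trans h3
      · rw [Finset.nonempty_iff_ne_empty]
        intro h0
        rw [Finset.sdiff_eq_empty_iff_subset] at h0
        have h3 : (A.card : ℝ) ≤ (full A Λ₁).card := by
          exact_mod_cast Finset.card_le_card h0
        have h4 : (0 : ℝ) < A.card := by
          exact_mod_cast Finset.card_pos.2 hAne
        nlinarith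
      · intro y hy z hz hzy
        rw [Finset.mem_sdiff] at hy ⊢
        refine ⟨hsat y hy.1 z hz (hΛ₁Δ hzy), ?_⟩
        intro hzf
        apply hy.2
        apply full_shift A Λ₁ z y hzf
        have e : y - z = -(z - y) := by abel
        rw [e]
        exact Λ₁.neg_mem hzy
      · intro w hw hμw
        have h3 := hpop w hμw
        have h4 : rr A w ≤ rr (A \ full A Λ₁) w + (full A Λ₁).card := by
          unfold rr
          refine (Finset.card_le_card ?_).trans (Finset.card_union_le _ _)
          intro y hy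
          rw [Finset.mem_filter] at hy
          rw [Finset.mem_union, Finset.mem_filter, Finset.mem_sdiff, Finset.mem_sdiff]
          by_cases hyf : y ∈ full A Λ₁
          · exact Or.inr hyf
          · left
            refine ⟨⟨hy.1, hyf⟩, hy.2, ?_⟩
            intro hf
            apply hyf
            apply full_shift A Λ₁ (y + w) y hf
            have e : y - (y + w) = -w := by abel
            rw [e]
            exact Λ₁.neg_mem hw
        have h5 : (rr A w : ℝ) ≤ rr (A \ full A Λ₁) w + (full A Λ₁).card := by exact_mod_cast h4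
        have h6 := mul_le_mul_of_nonneg_left h5 hτ0.le
        rw [mul_add] at h6
        nlinarith
      · intro _ y hy
        rw [Finset.mem_sdiff, mem_full] at hy
        apply hcl
        by_contra hnf
        apply hy.2
        refine ⟨hy.1, fun h hh => ?_⟩
        have h3 : y + h ∈ E := by
          by_contra hne
          exact hnf ⟨h, hh, hne⟩
        apply hsat y hy.1 _ h3
        rw [add_sub_cancel_left]
        exact hΛ₁Δ hh
      · rcases Nat.eq_zero_or_pos j with hj0 | hj0
        · subst hj0
          rw [zero_add, pow_one]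
          have h3 := hcardle Λ₁
          nlinarith
        · have hxB : x ∈ B := by
            have := hxΛ 0 (AddSubgroup.zero_mem _)
            rwa [add_zero] at this
          have h3 := hI.fb hj0 x hxB
          have h4 : Nat.card Λ₁ ≤ (fib E Λ x).card := by
            rw [Nat.card_eq_fintype_card, ← Finset.card_univ]
            apply Finset.card_le_card_of_injOn (fun h : Λ₁ => x + (h : G))
            · intro h _
              unfold fib
              simp only [Finset.coe_filter, Set.mem_ofPred_eq]
              refine ⟨hBE (hxΛ _ (hΛ₁ h.2)), ?_⟩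
              rw [add_sub_cancel_left]
              exact hΛ₁Λ h.2
            · intro a _ b _ hab
              exact Subtype.ext (add_left_cancel hab)
          have h5 : (Nat.card Λ₁ : ℝ) ≤ δ * Nat.card Λ := by
            refine le_trans ?_ h3
            exact_mod_cast h4
          have h6 := hI.sz
          calc (Nat.card Λ₁ : ℝ) * δ ≤ δ * Nat.card Λ * δ := mul_le_mul_of_nonneg_right h5 hδ.le
            _ = δ * (Nat.card Λ * δ) := by ring
            _ ≤ δ * (δ ^ j * Fintype.card G) := mul_le_mul_of_nonneg_left h6 hδ.le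
            _ = δ ^ (j + 1) * Fintype.card G := by ring
  obtain ⟨Λ, B, hI⟩ := key (J + 1)
  have h3 := hI.sz
  have h4 := hcard1 Λ
  have h5 : δ ^ (J + 1) * Fintype.card G = δ * (δ ^ J * Fintype.card G) := by ring
  rw [h5] at h3
  nlinarith

end Pool.Agent.Helper69.MCE
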